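import Mathlib
import Pool.Agent.Helper156_SP.Neg6

set_option autoImplicit false

/-!
# MP_112ba8_nt: joint moments of zeta and its derivative with a negative exponent of zeta

Unconditionally, for all real `p > 0` and `p < q < p + 1`, the joint moment of
`|ζ'(1/2 + it)|^q |ζ(1/2 + it)|^(p - q)`, in which `ζ` has the negative exponent `p - q`, converges; over `[T, 2T]` it is
at most a constant multiple of `(log T)^q M_p(2T + W)`, over `[T₁, T]` it is at least a constant multiple of the expected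
order `T (log T)^(p²/4 + q)`, and for `p ≤ 4` it is of exactly this order, over `[T, 2^n T]` with a suitable constant `n`.
The condition `q < p + 1` is necessary for convergence at simple zeros on the critical line.

Proof idea: write `|ζ'|^q |ζ|^(p - q) = |ζ'/ζ|^q |ζ|^p` on a segment of length `1/log T` and rescale. If the rescaled
function `h` is bounded by `S` on a disc of radius `14`, then the number of its zeros nearby and the size of its zero
free part are controlled by `log (S / |h(u)|)`, with `|h(u)|` the largest value on the segment; the integral of the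
distances to the zeros to the negative exponent converges as `q - p < 1`, and powers of `log (S / |h(u)|)` are absorbed
by `(|h(u)| / S)^p`. The disc bound is then replaced by a local mean of `|ζ|^p` on the critical line. The lower bounds
follow from the comparison of the moments of `ζ'` and `ζ` and the growth of `M_p`: off the zeros, for every `Y > 0`,
`|ζ'|^p ≤ Y^p |ζ|^p + Y^(p - q) |ζ'|^q |ζ|^(p - q)`.
-/

open Complex MeasureTheory

namespace Pool.Agent.Results.MP_112ba8_nt.JointMomentsNegative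

/-- The moment `M_p(T) = ∫_0^T |ζ(1/2 + it)|^p dt`, for real `p`. -/
noncomputable def M (p T : ℝ) : ℝ := ∫ t in (0:ℝ)..T, ‖riemannZeta (1 / 2 + t * I)‖ ^ p

/-- The function `|ζ'(1/2 + it)|^q |ζ(1/2 + it)|^(p - q)` of `t`. -/
noncomputable def jointFn (p q t : ℝ) : ℝ :=
  ‖deriv riemannZeta (1 / 2 + t * I)‖ ^ q * ‖riemannZeta (1 / 2 + t * I)‖ ^ (p - q)

theorem result (p q : ℝ) (hp : 0 < p) (hpq : p < q) (hq : q < p + 1) :
    (∃ C W T₀ : ℝ, 0 < C ∧ ∀ T : ℝ, T₀ ≤ T →
      IntervalIntegrable (jointFn p q) volume T (2 * T) ∧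
      ∫ t in T..(2 * T), jointFn p q t ≤ C * (Real.log T ^ q * M p (2 * T + W))) ∧
    (∃ T₁ c T₀ : ℝ, 0 < T₁ ∧ T₁ ≤ T₀ ∧ 0 < c ∧ ∀ T : ℝ, T₀ ≤ T →
      IntervalIntegrable (jointFn p q) volume T₁ T ∧
      c * (T * Real.log T ^ (p ^ 2 / 4 + q)) ≤ ∫ t in T₁..T, jointFn p q t) ∧
    (p ≤ 4 → ∃ (n : ℕ) (c C T₀ : ℝ), 0 < c ∧ 0 < C ∧ ∀ T : ℝ, T₀ ≤ T →
      IntervalIntegrable (jointFn p q) volume T (2 ^ n * T) ∧
      c * (T * Real.log T ^ (p ^ 2 / 4 + q)) ≤ ∫ t in T..(2 ^ n * T), jointFn p q t ∧
      ∫ t in T..(2 ^ n * T), jointFn p q t ≤ C * (T * Real.log T ^ (p ^ 2 / 4 + q))) := by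
  refine ⟨?_, Helper156_SP.joint_low_all hp hpq hq, fun h4 => Helper156_SP.joint_exact hp h4 hpq hq⟩
  obtain ⟨C, W, T₀, hC, h⟩ := Helper156_SP.neg_final hp hpq hq
  exact ⟨C, W, T₀, hC, fun T hT => ⟨(h T hT).1, (h T hT).2.1⟩⟩

end Pool.Agent.Results.MP_112ba8_nt.JointMomentsNegative
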