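import Pool.Agent.Helper156_SP.Fin2

set_option autoImplicit false

/-!
# MP_112ba8_nt: moments of zeta of every order over arbitrary sets of heights of density greater than `log T / 2π`

Let `p, ε, L, d > 0`.  There are `c, W > 0` such that for all large `T` and every finite set `S` of reals for which every
interval `[x, x + 2πL / log T]`, `0 ≤ x ≤ T + W`, contains at least `(1 + ε) L` points of `S` at mutual distances at least
`d / log T`,

* `∑_{s ∈ S} |ζ(1/2 + is)|^p ≥ c log T ∫_0^T |ζ(1/2 + it)|^p dt`,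
* `∑_{s ∈ S} |ζ(1/2 + is)|^p ≥ c T (log T)^(p²/4 + 1)` if `p ≥ 2`.

The required density, `(1 + ε)` points per mean spacing `2π / log T` of the zeros, does not depend on `p`.
-/

open MeasureTheory

namespace Pool.Agent.Results.MP_112ba8_nt.NyquistSampling

/-- Every interval `[x, x + 2πL / log T]` with `0 ≤ x ≤ T + W` contains at least `(1 + ε) L` points of `S` at mutual
distances at least `d / log T`. -/
def Dense (ε L d T W : ℝ) (S : Finset ℝ) : Prop :=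
  ∀ x : ℝ, 0 ≤ x → x ≤ T + W → ∃ S' ⊆ S, (∀ s ∈ S', x ≤ s ∧ s ≤ x + 2 * Real.pi * L / Real.log T) ∧
    (∀ s ∈ S', ∀ s' ∈ S', s ≠ s' → d / Real.log T ≤ |s - s'|) ∧ (1 + ε) * L ≤ (S'.card : ℝ)

theorem result (p ε L d : ℝ) (hp : 0 < p) (hε : 0 < ε) (hL : 0 < L) (hd : 0 < d) :
    ∃ c W T₀ : ℝ, 0 < c ∧ 0 < W ∧ ∀ T : ℝ, T₀ ≤ T → ∀ S : Finset ℝ, Dense ε L d T W S →
      c * (Real.log T * ∫ t in (0:ℝ)..T, ‖riemannZeta (1 / 2 + t * Complex.I)‖ ^ p) ≤
        ∑ s ∈ S, ‖riemannZeta (1 / 2 + s * Complex.I)‖ ^ p ∧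
      (2 ≤ p → c * (T * Real.log T ^ (p ^ 2 / 4 + 1)) ≤ ∑ s ∈ S, ‖riemannZeta (1 / 2 + s * Complex.I)‖ ^ p) := by
  obtain ⟨c, W, T₀, hc, hW, h⟩ := Pool.Agent.Helper156_SP.sampling_low hp hε hL hd
  exact ⟨c, W, T₀, hc, hW, fun T hT S hS => h T hT S fun x hx => hS x hx.1 hx.2⟩

end Pool.Agent.Results.MP_112ba8_nt.NyquistSampling
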