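import Pool.Agent.H875.TM.Fin
import Pool.Agent.H875.TC.Ser

/-!
# MP_112ba8_nt: the size of the moments of zeta is decided by the moments of its Taylor coefficients of order at most `(σ₀ - 1/2) / 2 * log T` at any abscissa `σ₀ > 1/2`

Let `M_k(T) = (1/T) ∫_0^T |ζ(1/2 + it)|^(2k) dt`, `k ≥ 1` real.  The asymptotic formula of the problem contains
the bound `M_k(T) ≪ T^ε` (all `ε > 0`), which is open for every `k > 2`.  We prove:

(1) for every `σ₀ > 1/2`, `M_k(T) ≪ T^ε` for all `ε > 0` if and only if, for all `ε > 0` and all large `T`,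

`∫_T^{2T} |ζ^(n)(σ₀ + it)|^(2k) dt ≤ (n! (σ₀ - 1/2)^(-n))^(2k) T^(1 + ε)` for all `n ≤ (σ₀ - 1/2) / 2 * log T`;

(2) for `σ₀ > 1` these are the moments, in the half-plane of absolute convergence, of the Dirichlet series
`∑ (log m)^n m^(-σ₀ - it)`;

(3) more generally, for `1/2 ≤ σ < 1`, `σ₀ > σ` and `θ ≥ 1`,
`∫_T^{2T} |ζ(σ + it)|^(2k) dt ≤ T^(θ + ε)` (all `ε > 0`, `T` large) if and only if
`∫_T^{2T} |ζ^(n)(σ₀ + it)|^(2k) dt ≤ (n! (σ₀ - σ)^(-n))^(2k) T^(θ + ε)` for all `n ≤ (σ₀ - σ) / 2 * log T`.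

Proof: by duality the moments are the norms of the functionals `s ↦ ∫_T^{2T} w(τ) ζ(s + iτ) dτ`.  Cauchy's
estimate gives the bounds for all `n`.  Conversely let `e > θ` be the best exponent on the line `σ`.  In the
Taylor expansion at `σ₀` the terms with `n ≤ (σ₀ - σ) / 2 * log T` are small by hypothesis, the others by
Cauchy's estimate with the exponent `e`; this gains on the line `σ + h` more than the convexity theorem, applied
with the functional equation, loses on the way back to the line `σ`.  Modules `Pool.Agent.H875.TM`.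
-/

set_option autoImplicit false

namespace Pool.Agent.Results.MP_112ba8_nt.TaylorCoefficientMoments

open Complex MeasureTheory Set Filter

/-- `M_k(T) = (1/T) ∫_0^T |ζ(1/2 + it)|^(2k) dt`. -/
noncomputable def M (k T : ℝ) : ℝ := (1 / T) * ∫ t in (0 : ℝ)..T, ‖riemannZeta (1 / 2 + t * I)‖ ^ (2 * k)

/-- `M_k(T) ≪ T^ε` for every `ε > 0`. -/
def LindelofOnAverage (k : ℝ) : Prop := ∀ ε : ℝ, 0 < ε → ∃ C : ℝ, ∀ T : ℝ, 1 ≤ T → M k T ≤ C * T ^ ε

/-- For every `ε > 0` and all large `T`: `∫_T^{2T} |ζ(σ + it)|^(2k) dt ≤ T^(θ + ε)`. -/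
def Moment (k σ θ : ℝ) : Prop := ∀ ε : ℝ, 0 < ε → ∃ T₀ : ℝ, ∀ T : ℝ, T₀ ≤ T →
  ∫ t in T..(2 * T), ‖riemannZeta (σ + t * I)‖ ^ (2 * k) ≤ T ^ (θ + ε)

/-- For every `ε > 0`, all large `T` and all `n ≤ (σ₀ - σ) / 2 * log T`:
`∫_T^{2T} |ζ^(n)(σ₀ + it)|^(2k) dt ≤ (n! (σ₀ - σ)^(-n))^(2k) T^(θ + ε)`. -/
def TaylorMoment (k σ σ₀ θ : ℝ) : Prop := ∀ ε : ℝ, 0 < ε → ∃ T₀ : ℝ, ∀ T : ℝ, T₀ ≤ T → ∀ n : ℕ,
  (n : ℝ) ≤ (σ₀ - σ) / 2 * Real.log T →
  ∫ t in T..(2 * T), ‖iteratedDeriv n riemannZeta (σ₀ + t * I)‖ ^ (2 * k) ≤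
    ((n.factorial : ℝ) / (σ₀ - σ) ^ n) ^ (2 * k) * T ^ (θ + ε)

/-- For every `ε > 0`, all large `T` and all `n ≤ (σ₀ - 1/2) / 2 * log T`:
`∫_T^{2T} |∑_m (log m)^n m^(-σ₀ - it)|^(2k) dt ≤ (n! (σ₀ - 1/2)^(-n))^(2k) T^(1 + ε)`. -/
def DirichletMoment (k σ₀ : ℝ) : Prop := ∀ ε : ℝ, 0 < ε → ∃ T₀ : ℝ, ∀ T : ℝ, T₀ ≤ T → ∀ n : ℕ,
  (n : ℝ) ≤ (σ₀ - 1 / 2) / 2 * Real.log T →
  ∫ t in T..(2 * T), ‖∑' m : ℕ, (Real.log ((m : ℝ) + 1) : ℂ) ^ n / ((m : ℂ) + 1) ^ (σ₀ + t * I)‖ ^ (2 * k) ≤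
    ((n.factorial : ℝ) / (σ₀ - 1 / 2) ^ n) ^ (2 * k) * T ^ (1 + ε)

open Pool.Agent.H24R2.JP (Om)
open Pool.Agent.H875.TM
open Pool.Agent.H875.TC (zeta_iter)

lemma pow_eq {k T θ ε : ℝ} (hk : 0 < k) (hT : 0 < T) :
    T ^ (θ + ε) = Real.exp (Om T * (θ / k + ε / k)) ^ (2 * k) := by
  rw [← Real.exp_mul, Real.rpow_def_of_pos hT]
  unfold Om
  congr 1
  field_simp

lemma moment_iff {k σ θ : ℝ} (hk : 0 < k) : Moment k σ θ ↔ Mo (2 * k) (σ - 1 / 2) (θ / k) := by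
  have e : ∀ T : ℝ, (∫ t in T..(2 * T), ‖riemannZeta (σ + t * I)‖ ^ (2 * k)) =
      Ip (2 * k) (gz ((σ - 1 / 2 : ℝ) : ℂ)) T (2 * T) := by
    intro T
    unfold Ip gz
    congr 1
    funext t
    congr 3
    push_cast
    ring
  constructor
  · intro h ε hε
    obtain ⟨T0, h0⟩ := h (ε * k) (by positivity)
    refine ⟨max T0 1, fun T hT => ?_⟩
    have h1 := h0 T ((le_max_left _ _).trans hT)
    have hT0 : 0 < T := by linarith [(le_max_right T0 1).trans hT]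
    rwa [e, pow_eq hk hT0, mul_div_cancel_right₀ _ hk.ne'] at h1
  · intro h ε hε
    obtain ⟨T0, h0⟩ := h (ε / k) (by positivity)
    refine ⟨max T0 1, fun T hT => ?_⟩
    have h1 := h0 T ((le_max_left _ _).trans hT)
    have hT0 : 0 < T := by linarith [(le_max_right T0 1).trans hT]
    rw [e, pow_eq hk hT0]
    exact h1

lemma taylor_iff {k σ σ₀ θ : ℝ} (hk : 0 < k) (hσ : σ < σ₀) :
    TaylorMoment k σ σ₀ θ ↔ DM (2 * k) (σ - 1 / 2) (σ₀ - 1 / 2) (θ / k) := by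
  have hD : 0 < σ₀ - σ := by linarith
  have e : ∀ (n : ℕ) (T : ℝ), (∫ t in T..(2 * T), ‖iteratedDeriv n riemannZeta (σ₀ + t * I)‖ ^ (2 * k)) =
      Ip (2 * k) (gd n (σ₀ - 1 / 2)) T (2 * T) := by
    intro n T
    unfold Ip gd
    congr 1
    funext t
    congr 3
    push_cast
    ring
  have e2 : σ₀ - 1 / 2 - (σ - 1 / 2) = σ₀ - σ := by ring
  have e3 : ∀ (n : ℕ) (T ε : ℝ), 0 < T → ((n.factorial : ℝ) / (σ₀ - σ) ^ n) ^ (2 * k) * T ^ (θ + ε) =
      ((n.factorial : ℝ) / (σ₀ - σ) ^ n * Real.exp (Om T * (θ / k + ε / k))) ^ (2 * k) := by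
    intro n T ε hT
    rw [pow_eq hk hT, Real.mul_rpow (by positivity) (Real.exp_pos _).le]
  unfold TaylorMoment DM
  rw [e2]
  constructor
  · intro h ε hε
    obtain ⟨T0, h0⟩ := h (ε * k) (by positivity)
    refine ⟨max T0 1, fun T hT n hn => ?_⟩
    have h1 := h0 T ((le_max_left _ _).trans hT) n hn
    have hT0 : 0 < T := by linarith [(le_max_right T0 1).trans hT]
    rwa [e, e3 n T _ hT0, mul_div_cancel_right₀ _ hk.ne'] at h1
  · intro h ε hε
    obtain ⟨T0, h0⟩ := h (ε / k) (by positivity)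
    refine ⟨max T0 1, fun T hT n hn => ?_⟩
    have h1 := h0 T ((le_max_left _ _).trans hT) n hn
    have hT0 : 0 < T := by linarith [(le_max_right T0 1).trans hT]
    rw [e, e3 n T _ hT0]
    exact h1

lemma main {k σ σ₀ θ : ℝ} (hk : 1 ≤ k) (h1 : 1 / 2 ≤ σ) (h2 : σ < 1) (h3 : σ < σ₀) (h4 : 1 ≤ θ) :
    Moment k σ θ ↔ TaylorMoment k σ σ₀ θ := by
  rw [moment_iff (by linarith), taylor_iff (by linarith) h3]
  refine mo_iff_dm (by linarith) (by linarith) (by linarith) (by linarith) ?_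
  rw [div_le_div_iff₀ (by linarith) (by linarith)]
  nlinarith

lemma line_cont (k : ℝ) (hk : 0 ≤ k) : Continuous fun t : ℝ => ‖riemannZeta (1 / 2 + t * I)‖ ^ (2 * k) := by
  apply Continuous.rpow_const _ fun _ => Or.inr (by linarith)
  apply Continuous.norm
  rw [continuous_iff_continuousAt]
  intro t
  have h1 : (1 / 2 + (t : ℂ) * I) ≠ 1 := by
    intro h
    have := congrArg Complex.re h
    simp at this
  exact (differentiableAt_riemannZeta h1).continuousAt.comp (f := fun t : ℝ => 1 / 2 + (t : ℂ) * I) (by fun_prop)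

lemma half_eq (k T : ℝ) : (∫ t in T..(2 * T), ‖riemannZeta (((1 / 2 : ℝ) : ℂ) + t * I)‖ ^ (2 * k)) =
    ∫ t in T..(2 * T), ‖riemannZeta (1 / 2 + t * I)‖ ^ (2 * k) := by
  congr 1
  funext t
  congr 3
  push_cast
  ring

lemma average_iff {k : ℝ} (hk : 0 ≤ k) : LindelofOnAverage k ↔ Moment k (1 / 2) 1 := by
  obtain ⟨f, hf⟩ : ∃ f : ℝ → ℝ, f = fun t : ℝ => ‖riemannZeta (1 / 2 + t * I)‖ ^ (2 * k) := ⟨_, rfl⟩
  have hc : Continuous f := by rw [hf]; exact line_cont k hk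
  have hi : ∀ a b : ℝ, IntervalIntegrable f volume a b := fun a b => hc.intervalIntegrable a b
  have h0 : ∀ t, 0 ≤ f t := fun t => by rw [hf]; exact Real.rpow_nonneg (norm_nonneg _) _
  have hM : ∀ T : ℝ, M k T = (1 / T) * ∫ t in (0 : ℝ)..T, f t := fun T => by rw [hf]; rfl
  have hmono : ∀ a b c d : ℝ, c ≤ a → a ≤ b → b ≤ d → (∫ t in a..b, f t) ≤ ∫ t in c..d, f t :=
    fun a b c d hca hab hbd => intervalIntegral.integral_mono_interval hca hab hbd
      (Eventually.of_forall h0) (hi c d)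
  constructor
  · intro h ε hε
    obtain ⟨C, hC⟩ := h (ε / 2) (by linarith)
    obtain ⟨T1, hT1, k1⟩ := Pool.Agent.H875.TC.absorb (2 * 2 ^ (ε / 2) * max C 0) (ε / 2) (by linarith)
    refine ⟨T1, fun T hT => ?_⟩
    have hT1' : 1 ≤ T := hT1.trans hT
    have hT0 : 0 < T := by linarith
    have h1 := hC (2 * T) (by linarith)
    rw [hM] at h1
    have h2 : (∫ t in (0 : ℝ)..(2 * T), f t) ≤ (2 * T) * (C * (2 * T) ^ (ε / 2)) := by
      rw [one_div, inv_mul_le_iff₀ (by linarith)] at h1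
      exact h1
    have h3 := hmono T (2 * T) 0 (2 * T) hT0.le (by linarith) le_rfl
    have h4 : (2 * T) ^ (ε / 2) = 2 ^ (ε / 2) * T ^ (ε / 2) := Real.mul_rpow (by norm_num) hT0.le
    have h5 : T ^ (1 + ε) = T * T ^ (ε / 2) * T ^ (ε / 2) := by
      rw [Real.rpow_add hT0, Real.rpow_one, mul_assoc, ← Real.rpow_add hT0]
      congr 2
      ring
    have h6 := k1 T hT
    rw [half_eq]
    change _ ≤ T ^ (1 + ε)
    have h7 : (∫ t in T..(2 * T), f t) ≤ T ^ (1 + ε) := by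
      refine h3.trans (h2.trans ?_)
      rw [h4, h5]
      have hA : 0 < T ^ (ε / 2) := Real.rpow_pos_of_pos hT0 _
      have hB : (0 : ℝ) < 2 ^ (ε / 2) := by positivity
      calc 2 * T * (C * (2 ^ (ε / 2) * T ^ (ε / 2))) ≤ 2 * T * (max C 0 * (2 ^ (ε / 2) * T ^ (ε / 2))) := by
            apply mul_le_mul_of_nonneg_left _ (by positivity)
            exact mul_le_mul_of_nonneg_right (le_max_left _ _) (by positivity)
        _ = T * T ^ (ε / 2) * (2 * 2 ^ (ε / 2) * max C 0) := by ring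
        _ ≤ T * T ^ (ε / 2) * T ^ (ε / 2) := mul_le_mul_of_nonneg_left h6 (by positivity)
    rw [hf] at h7
    exact h7
  · intro h ε hε
    obtain ⟨T0, k0⟩ := h ε hε
    obtain ⟨S, hS⟩ : ∃ S : ℝ, S = max T0 1 := ⟨_, rfl⟩
    have hS1 : 1 ≤ S := by rw [hS]; exact le_max_right _ _
    obtain ⟨A, hA⟩ : ∃ A : ℝ, A = ∫ t in (0 : ℝ)..(2 * S), f t := ⟨_, rfl⟩
    have hA0 : 0 ≤ A := by rw [hA]; exact intervalIntegral.integral_nonneg (by linarith) fun t _ => h0 t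
    have claim : ∀ n : ℕ, ∀ T : ℝ, 0 ≤ T → T ≤ 2 ^ n * (2 * S) →
        (∫ t in (0 : ℝ)..T, f t) ≤ A + T ^ (1 + ε) := by
      intro n
      induction n with
      | zero =>
        intro T hT hT2
        rw [pow_zero, one_mul] at hT2
        have h1 := hmono 0 T 0 (2 * S) le_rfl hT hT2
        rw [← hA] at h1
        have : 0 ≤ T ^ (1 + ε) := Real.rpow_nonneg hT _
        linarith
      | succ n ih =>
        intro T hT hT2
        rcases le_or_gt T (2 * S) with h1 | h1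
        · have h2 := hmono 0 T 0 (2 * S) le_rfl hT h1
          rw [← hA] at h2
          have : 0 ≤ T ^ (1 + ε) := Real.rpow_nonneg hT _
          linarith
        · have h2 := ih (T / 2) (by linarith) (by rw [pow_succ] at hT2; linarith)
          have h3 := k0 (T / 2) (by
            have : T0 ≤ S := by rw [hS]; exact le_max_left _ _
            linarith)
          rw [half_eq, show 2 * (T / 2) = T by ring] at h3
          have h3' : (∫ t in (T / 2)..T, f t) ≤ (T / 2) ^ (1 + ε) := by rw [hf]; exact h3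
          have h4 := intervalIntegral.integral_add_adjacent_intervals (hi 0 (T / 2)) (hi (T / 2) T)
          have h5 : 2 * (T / 2) ^ (1 + ε) ≤ T ^ (1 + ε) := by
            have hT0 : 0 < T := by linarith
            rw [Real.div_rpow hT (by norm_num), Real.rpow_add (by norm_num : (0 : ℝ) < 2), Real.rpow_one]
            have h6 : (1 : ℝ) ≤ 2 ^ ε := Real.one_le_rpow (by norm_num) hε.le
            have h7 : 0 ≤ T ^ (1 + ε) := Real.rpow_nonneg hT _
            rw [mul_div_assoc', div_le_iff₀ (by positivity)]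
            nlinarith
          linarith
    refine ⟨A + 1, fun T hT => ?_⟩
    have hT0 : 0 < T := by linarith
    obtain ⟨n, hn⟩ := pow_unbounded_of_one_lt T (by norm_num : (1 : ℝ) < 2)
    have h1 := claim n T hT0.le (by
      have : (0 : ℝ) < 2 ^ n := by positivity
      nlinarith)
    have h2 : (1 : ℝ) ≤ T ^ ε := Real.one_le_rpow hT hε.le
    rw [hM, one_div, inv_mul_le_iff₀ hT0]
    refine h1.trans ?_
    have h3 : T ^ (1 + ε) = T * T ^ ε := by rw [Real.rpow_add hT0, Real.rpow_one]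
    rw [h3]
    have h4 : A ≤ A * (T * T ^ ε) := le_mul_of_one_le_right hA0 (by nlinarith)
    linarith

lemma dirichlet_iff {k σ₀ : ℝ} (hσ : 1 < σ₀) : TaylorMoment k (1 / 2) σ₀ 1 ↔ DirichletMoment k σ₀ := by
  have e : ∀ (n : ℕ) (T : ℝ), (∫ t in T..(2 * T), ‖iteratedDeriv n riemannZeta (σ₀ + t * I)‖ ^ (2 * k)) =
      ∫ t in T..(2 * T),
        ‖∑' m : ℕ, (Real.log ((m : ℝ) + 1) : ℂ) ^ n / ((m : ℂ) + 1) ^ (σ₀ + t * I)‖ ^ (2 * k) := by
    intro n T
    congr 1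
    funext t
    rw [zeta_iter n (by simpa using hσ), norm_mul, norm_pow, norm_neg, norm_one, one_pow, one_mul]
  unfold TaylorMoment DirichletMoment
  simp only [e]

/-- **Main theorem.** -/
theorem result (k : ℝ) (hk : 1 ≤ k) :
    (∀ σ₀ : ℝ, 1 / 2 < σ₀ → (LindelofOnAverage k ↔ TaylorMoment k (1 / 2) σ₀ 1)) ∧
    (∀ σ₀ : ℝ, 1 < σ₀ → (LindelofOnAverage k ↔ DirichletMoment k σ₀)) ∧
    (∀ σ σ₀ θ : ℝ, 1 / 2 ≤ σ → σ < 1 → σ < σ₀ → 1 ≤ θ → (Moment k σ θ ↔ TaylorMoment k σ σ₀ θ)) := by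
  have h1 : ∀ σ₀ : ℝ, 1 / 2 < σ₀ → (LindelofOnAverage k ↔ TaylorMoment k (1 / 2) σ₀ 1) := fun σ₀ h => by
    rw [average_iff (by linarith)]
    exact main hk le_rfl (by norm_num) h le_rfl
  refine ⟨h1, fun σ₀ h => ?_, fun σ σ₀ θ a b c d => main hk a b c d⟩
  rw [h1 σ₀ (by linarith), dirichlet_iff h]

end Pool.Agent.Results.MP_112ba8_nt.TaylorCoefficientMoments
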